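import Pool.Agent.W81.R1N.App2N

/-!
The asymptotic formula of Hardy and Littlewood for the number of representations as a prime and a
square, for almost all integers of every interval `(N, N + H]` with `√N (log N)^B ≤ H ≤ N`.
-/

set_option autoImplicit false

namespace Pool.Agent.Results.MP_d48457_nt.ShortIntervalAsymptotic

open Finset Filter

/-- the number of `m ≥ 1` with `n - m²` prime -/
noncomputable def reps (n : ℕ) : ℕ :=
  ((Icc 1 n).filter (fun m : ℕ => m ^ 2 ≤ n ∧ (n - m ^ 2).Prime)).card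

/-- the sum of `1 / log (n - m²)` over `m ≥ 1` with `m² + 2 ≤ n` -/
noncomputable def mainSum (n : ℕ) : ℝ :=
  ∑ m ∈ (Icc 1 n).filter (fun m : ℕ => m ^ 2 + 2 ≤ n), 1 / Real.log ((n - m ^ 2 : ℕ) : ℝ)

/-- `∏ (1 - (n/p)/(p-1))` over the odd primes `p < X` -/
noncomputable def partialProd (n X : ℕ) : ℝ :=
  ∏ p ∈ (range X).filter (fun p : ℕ => Nat.Prime p ∧ 2 < p),
    (1 - ((jacobiSym (n : ℤ) p : ℤ) : ℝ) / ((p : ℝ) - 1))

lemma prod_eq (n X : ℕ) : Pool.Agent.W80.EC.Pc (-((1 : ℕ) : ℤ)) ((0 ^ 2 + 4 * 1 * n : ℕ) : ℤ) X =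
    partialProd n X := by
  unfold Pool.Agent.W80.EC.Pc partialProd
  have hset : (range X).filter (fun p : ℕ => Nat.Prime p ∧ 2 < p ∧ ¬ ((p : ℤ) ∣ -((1 : ℕ) : ℤ))) =
      (range X).filter (fun p : ℕ => Nat.Prime p ∧ 2 < p) := by
    apply filter_congr
    intro p _
    constructor
    · rintro ⟨h1, h2, _⟩
      exact ⟨h1, h2⟩
    · rintro ⟨h1, h2⟩
      refine ⟨h1, h2, fun h => ?_⟩
      rw [dvd_neg, Int.natCast_dvd_natCast, Nat.dvd_one] at h
      omega
  rw [hset]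
  apply prod_congr rfl
  intro p hp
  rw [mem_filter] at hp
  have hp2 : p ≠ 2 := by omega
  have e1 : ((0 ^ 2 + 4 * 1 * n : ℕ) : ℤ) = (2 : ℤ) ^ 2 * n := by push_cast; ring
  have h2 : (2 : ℤ).gcd p = 1 := by
    have h3 : Nat.Coprime 2 p := (Nat.coprime_primes Nat.prime_two hp.2.1).2 (Ne.symm hp2)
    exact h3
  rw [e1, jacobiSym.mul_left, jacobiSym.sq_one' h2, one_mul]

open Classical in
/-- **Prime plus a square, almost all integers of short intervals.** For all `U` and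
`0 < ε ≤ 1/2` there are `B, N₀` such that for all `N ≥ N₀` and `√N (log N)^B ≤ H ≤ N`, all integers
`n` of the interval `(N, N + H]` but at most `H/(log N)^U` have the following property: if `n` is
not a square, then the infinite product `∏ (1 - (n/p)/(p-1))` over the odd primes converges to some
`𝔖 ≥ 1/(4 log N)`, the number of `m ≥ 1` with `n - m²` prime equals
`𝔖 (∑_m 1/log(n - m²) + O*(√n/(log n)^U))`, it is `(1 + O*(ε)) 𝔖 √n/log n`, and in particular
`n` is the sum of a prime and the square of a positive integer. -/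
theorem result (U : ℕ) (ε : ℝ) (hε : 0 < ε) (hε1 : ε ≤ 1 / 2) : ∃ B N0 : ℕ, ∀ N H : ℕ, N0 ≤ N →
    Real.sqrt N * Real.log N ^ B ≤ H → H ≤ N →
    ∃ Bad : Finset ℕ, (Bad.card : ℝ) ≤ H / Real.log N ^ U ∧
      ∀ n : ℕ, N < n → n ≤ N + H → n ∉ Bad → ¬ IsSquare n →
        ∃ S : ℝ, 0 < S ∧ Tendsto (fun X : ℕ => partialProd n X) atTop (nhds S) ∧
          1 / (4 * Real.log N) ≤ S ∧
          |(reps n : ℝ) - S * mainSum n| ≤ S * (Real.sqrt n / Real.log n ^ U) ∧
          |(reps n : ℝ) - S * (Real.sqrt n / Real.log n)| ≤ ε * (S * (Real.sqrt n / Real.log n)) ∧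
          ∃ p m : ℕ, p.Prime ∧ 1 ≤ m ∧ n = p + m ^ 2 := by
  obtain ⟨B, N0, h⟩ := Pool.Agent.W81.R1N.app 1 0 le_rfl U ε hε (by linarith)
  refine ⟨B, N0 + 3, fun N H hN hH1 hH2 => ?_⟩
  obtain ⟨Bad, hBad, hgood⟩ := h N H (by omega) hH1 hH2
  refine ⟨Bad, hBad, fun n hn1 hn2 hnB hsq => ?_⟩
  obtain ⟨K, hK, hlim, hlow, hA, hB⟩ := hgood n (mem_Ioc.2 ⟨hn1, hn2⟩) hnB (by simp)
    (by
      intro hcon
      apply hsq
      have e1 : 0 ^ 2 + 4 * 1 * n = 2 ^ 2 * n := by ring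
      rw [e1] at hcon
      obtain ⟨r, hr⟩ := hcon
      have h2 : 2 ∣ r := by
        have h3 : 2 ∣ r * r := ⟨2 * n, by rw [← hr]; ring⟩
        rcases (Nat.Prime.dvd_mul Nat.prime_two).1 h3 with h4 | h4 <;> exact h4
      obtain ⟨s, rfl⟩ := h2
      refine ⟨s, ?_⟩
      have h5 : 4 * n = 4 * (s * s) := by rw [show 4 * n = 2 ^ 2 * n by ring, hr]; ring
      omega) (by simp)
  have hep : Pool.Agent.W80.EC.ep (-((1 : ℕ) : ℤ)) (-((0 : ℕ) : ℤ)) = 1 := by
    unfold Pool.Agent.W80.EC.ep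
    rw [if_neg]
    decide
  have hGf : Pool.Agent.W80.EC.Gf (-((1 : ℕ) : ℤ)) (-((0 : ℕ) : ℤ)) = 1 := by
    unfold Pool.Agent.W80.EC.Gf
    have : Int.gcd (-((1 : ℕ) : ℤ)) (-((0 : ℕ) : ℤ)) = 1 := by decide
    rw [this, Nat.primeFactors_one, filter_empty, prod_empty]
  have hr : Pool.Agent.W81.R1N.rr 1 0 n = reps n := by
    unfold Pool.Agent.W81.R1N.rr reps
    simp only [one_mul, zero_mul, add_zero]
  have hJ : Pool.Agent.W81.R1N.JJ 1 0 n = mainSum n := by
    unfold Pool.Agent.W81.R1N.JJ mainSum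
    simp only [one_mul, zero_mul, add_zero]
  rw [hep, hGf, one_mul, mul_one] at hlow hA hB
  rw [hr] at hA hB
  rw [hJ] at hA
  rw [Nat.cast_one, div_one] at hB
  have hn0 : (0 : ℝ) < n := by
    have : 0 < n := by omega
    exact_mod_cast this
  have hLn : 0 < Real.log n := by
    apply Real.log_pos
    have : 1 < n := by omega
    exact_mod_cast this
  refine ⟨K, hK, ?_, hlow, hA, hB, ?_⟩
  · simp_rw [← prod_eq]
    exact hlim
  · have hpos : 0 < reps n := by
      have h1 : 0 < K * (Real.sqrt n / Real.log n) := by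
        have := Real.sqrt_pos.2 hn0
        positivity
      have h2 := (abs_le.1 hB).1
      have h3 : 0 < (reps n : ℝ) := by nlinarith
      exact_mod_cast h3
    unfold reps at hpos
    rw [card_pos] at hpos
    obtain ⟨m, hm⟩ := hpos
    rw [mem_filter, mem_Icc] at hm
    exact ⟨n - m ^ 2, m, hm.2.2, hm.1.1, by omega⟩

end Pool.Agent.Results.MP_d48457_nt.ShortIntervalAsymptotic
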